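import Pool.Agent.Helper294.FG.Basic
import Pool.Agent.Helper294.FG.Free
import Pool.Agent.Helper294.FGD.Unipotent

set_option autoImplicit false

namespace Pool.Agent.Results.MP_5e1856_al.AInvariants

universe u v

/-- The invariants `F^G` of a group `G` of `k`-algebra automorphisms of `F = k⟨X⟩`. -/
def Invariants {k : Type u} [Field k] {X : Type v}
    (G : Subgroup (FreeAlgebra k X ≃ₐ[k] FreeAlgebra k X)) : Subalgebra k (FreeAlgebra k X) where
  carrier := {f | ∀ g ∈ G, g f = f}
  mul_mem' := fun ha hb g hg => by rw [map_mul, ha g hg, hb g hg]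
  add_mem' := fun ha hb g hg => by rw [map_add, ha g hg, hb g hg]
  algebraMap_mem' := fun c g _ => AlgEquiv.commutes g c

/-- The `k`-span of the monomials `x₁ ⋯ x_r` with `w x₁ + ⋯ + w x_r = n`. -/
def Homogeneous (k : Type u) [Field k] {X : Type v} (w : X → ℕ) (n : ℕ) :
    Submodule k (FreeAlgebra k X) :=
  Submodule.span k {f | ∃ l : List X, (l.map w).sum = n ∧ f = (l.map (FreeAlgebra.ι k)).prod}

/-- The `k`-span of the monomials in the generators that are smaller than `x`, which is the
subalgebra generated by them. -/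
def Below (k : Type u) [Field k] {X : Type v} [LinearOrder X] (x : X) :
    Submodule k (FreeAlgebra k X) :=
  Submodule.span k {f | ∃ l : List X, (∀ y ∈ l, y < x) ∧ f = (l.map (FreeAlgebra.ι k)).prod}

/-- `S` is a free algebra: some family of elements of `S` generates it, and the natural map from
the free algebra on the family is an isomorphism. -/
def IsFreeAlgebra (k : Type u) [Field k] {X : Type v} (S : Subalgebra k (FreeAlgebra k X)) : Prop :=
  ∃ (I : Type (max u v)) (y : I → S), Function.Bijective (FreeAlgebra.lift k y)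

/-- `R` is a 2-fir: a nonzero ring without zero divisors in which `aR + bR` is a principal right
ideal whenever `aR ∩ bR ≠ 0`. -/
def IsTwoFir (R : Type v) [Ring R] : Prop :=
  Nontrivial R ∧ NoZeroDivisors R ∧
  ∀ a b : R, (∃ u v : R, a * u = b * v ∧ a * u ≠ 0) →
    ∃ d : R, ∀ x : R, (∃ r s : R, x = a * r + b * s) ↔ ∃ t : R, x = d * t

/-- Every nonzero element has a bound for the lengths of its factorisations into nonunits. -/
def BoundedFactorisations (R : Type v) [Ring R] : Prop :=
  ∀ c : R, c ≠ 0 → ∃ N : ℕ, ∀ l : List R, (∀ x ∈ l, ¬ IsUnit x) → l.prod = c → l.length ≤ N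

section One
open Pool.Agent.Helper294.FG
variable {k : Type u} [Field k] {X : Type v}

lemma concl {G : Subgroup (FreeAlgebra k X ≃ₐ[k] FreeAlgebra k X)}
    (a b : Invariants G) (u v : FreeAlgebra k X) (h : (a : FreeAlgebra k X) * u = b * v)
    (hne : (a : FreeAlgebra k X) * u ≠ 0) :
    ∃ d : Invariants G, ∀ x : Invariants G,
      (∃ r s : Invariants G, x = a * r + b * s) ↔ ∃ t : Invariants G, x = d * t := by
  set S : Set (FreeAlgebra k X →ₐ[k] FreeAlgebra k X) := {f | ∃ g ∈ G, f = g.toAlgHom} with hS
  have hinj : ∀ g ∈ S, Function.Injective g := by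
    rintro _ ⟨g, _, rfl⟩
    exact g.injective
  have hfix : ∀ x : FreeAlgebra k X, Fixed S x ↔ x ∈ Invariants G := by
    intro x
    constructor
    · intro hx g hg
      exact hx _ ⟨g, hg, rfl⟩
    · rintro hx _ ⟨g, hg, rfl⟩
      exact hx g hg
  obtain ⟨d, p, q, r, s, hd, hp, hq, hr, hs, e1, e2, e3⟩ :=
    main hinj ((hfix _).2 a.2) ((hfix _).2 b.2) h hne
  rw [hfix] at hd hp hq hr hs
  refine ⟨⟨d, hd⟩, fun x => ⟨?_, ?_⟩⟩
  · rintro ⟨r', s', hx⟩
    refine ⟨⟨p, hp⟩ * r' + ⟨q, hq⟩ * s', ?_⟩
    apply Subtype.ext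
    rw [hx]
    push_cast
    rw [e1, e2]
    simp only [mul_add, mul_assoc]
  · rintro ⟨t, hx⟩
    refine ⟨⟨r, hr⟩ * t, ⟨s, hs⟩ * t, ?_⟩
    apply Subtype.ext
    rw [hx]
    push_cast
    conv_lhs => rw [e3]
    simp only [add_mul, mul_assoc]

lemma unit_of_sz {G : Subgroup (FreeAlgebra k X ≃ₐ[k] FreeAlgebra k X)} {x : Invariants G}
    (hx : x ≠ 0) (h : ¬ IsUnit x) : 2 ≤ sz (x : FreeAlgebra k X) := by
  rw [sz_nonscalar]
  rintro ⟨c, hc⟩
  apply h
  have hc0 : c ≠ 0 := by
    rintro rfl
    apply hx
    apply Subtype.ext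
    rw [← hc, map_zero]; rfl
  have : x = algebraMap k (Invariants G) c := Subtype.ext hc.symm
  rw [this]
  exact (IsUnit.mk0 c hc0).map (algebraMap k (Invariants G))

lemma sz_prod : ∀ l : List (FreeAlgebra k X), (∀ x ∈ l, 2 ≤ sz x) → l.length + 1 ≤ sz l.prod := by
  intro l
  induction l with
  | nil =>
    intro _
    have : sz (1 : FreeAlgebra k X) ≠ 0 := fun h => one_ne_zero (sz_eq_zero.1 h)
    simp only [List.length_nil, List.prod_nil]
    omega
  | cons x l ih =>
    intro h
    have h1 := h x (by simp)
    have h2 := ih (fun y hy => h y (by simp [hy]))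
    have hx : x ≠ 0 := by rintro rfl; rw [sz_eq_zero.2 rfl] at h1; omega
    have hp : l.prod ≠ 0 := by
      intro h0; rw [h0, sz_eq_zero.2 rfl] at h2; omega
    have h3 := sz_mul hx hp
    rw [List.prod_cons, List.length_cons]
    omega

/-- For every field `k`, every set `X` and every group `G` (finite or infinite) of `k`-algebra
automorphisms of the free algebra `k⟨X⟩`, the algebra of invariants is a 2-fir with bounded
factorisations, i.e. a noncommutative unique factorisation domain in the sense of Cohn. -/
lemma part_one : ∀ (k : Type u) [Field k] (X : Type v)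
    (G : Subgroup (FreeAlgebra k X ≃ₐ[k] FreeAlgebra k X)),
    IsTwoFir (Invariants G) ∧ BoundedFactorisations (Invariants G) := by
  intro k _ X G
  refine ⟨⟨inferInstance, inferInstance, ?_⟩, ?_⟩
  · rintro a b ⟨u, v, h, hne⟩
    apply concl a b u v
    · have := congrArg Subtype.val h
      simpa using this
    · intro h0
      apply hne
      apply Subtype.ext
      simpa using h0
  · intro c hc
    refine ⟨sz (c : FreeAlgebra k X), ?_⟩
    intro l hl hprod
    have hne : ∀ x ∈ l, x ≠ 0 := by
      rintro x hx rfl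
      exact hc (by rw [← hprod]; exact List.prod_eq_zero hx)
    have h1 := sz_prod (l.map (Subalgebra.val (Invariants G))) (by
      intro y hy
      rw [List.mem_map] at hy
      obtain ⟨x, hx, rfl⟩ := hy
      exact unit_of_sz (hne x hx) (hl x hx))
    rw [List.length_map, ← map_list_prod, hprod] at h1
    have h2 : sz ((Subalgebra.val (Invariants G)) c) = sz (c : FreeAlgebra k X) := rfl
    omega

end One

section Two
open Pool.Agent.Helper294.FG
variable {k : Type u} [Field k] {X : Type v}

lemma Hm_of_mem {w : X → ℕ} {n : ℕ} {f : FreeAlgebra k X} (h : f ∈ Homogeneous k w n) : Hm w n f := by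
  have hl : ∀ l : List X, Hm w (l.map w).sum ((l.map (FreeAlgebra.ι k)).prod) := by
    intro l
    induction l with
    | nil => exact Hm.one
    | cons x l ih =>
      rw [List.map_cons, List.sum_cons, List.map_cons, List.prod_cons]
      exact (Hm.ι x).mul ih
  induction h using Submodule.span_induction with
  | mem f hf =>
    obtain ⟨l, rfl, rfl⟩ := hf
    exact hl l
  | zero => exact Hm.zero n
  | add a b _ _ ha hb => exact ha.add hb
  | smul c a _ ha => exact ha.smul c

/-- Let `F` be the free algebra over a field `k` on a set `X` whose elements have positive integer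
weights `w`, and let `G` be a group (finite or infinite) of automorphisms of `F` such that every
`g ∈ G` maps each generator `x` to a weighted homogeneous element of weight `w x`.  Then `F^G` is a
free algebra. -/
lemma part_two : ∀ (k : Type u) [Field k] (X : Type v) (w : X → ℕ), (∀ x, 0 < w x) →
    ∀ G : Subgroup (FreeAlgebra k X ≃ₐ[k] FreeAlgebra k X),
      (∀ g ∈ G, ∀ x : X, g (FreeAlgebra.ι k x) ∈ Homogeneous k w (w x)) →
      IsFreeAlgebra k (Invariants G) := by
  intro k _ X w hw G hG
  let S : Set (FreeAlgebra k X →ₐ[k] FreeAlgebra k X) := {f | ∃ g ∈ G, f = g.toAlgHom}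
  have hfix : ∀ x : FreeAlgebra k X, Fixed S x ↔ x ∈ Invariants G := by
    intro x
    constructor
    · intro hx g hg
      exact hx _ ⟨g, hg, rfl⟩
    · rintro hx _ ⟨g, hg, rfl⟩
      exact hx g hg
  have hS : ∀ g ∈ S, ∀ x, Hm w (w x) (g (FreeAlgebra.ι k x)) := by
    rintro _ ⟨g, hg, rfl⟩ x
    exact Hm_of_mem (hG g hg x)
  let y : Ix w S → Invariants G := fun i => ⟨yy w S i, (hfix _).1 (yy_mem w S i).1⟩
  have hval : ∀ f : FreeAlgebra k (Ix w S), ((FreeAlgebra.lift k y f : Invariants G) : FreeAlgebra k X) = Lf w S f := by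
    intro f
    have h1 : (Invariants G).val.comp (FreeAlgebra.lift k y) = Lf w S := by
      apply FreeAlgebra.hom_ext
      funext i
      simp [Lf, y]
    exact DFunLike.congr_fun h1 f
  refine ⟨Ix w S, y, ?_, ?_⟩
  · rw [injective_iff_map_eq_zero]
    intro f hf
    obtain ⟨n, hn⟩ := exists_Fl (star f)
    apply Lf_inj hw hS (n + 1) f hn
    rw [← hval, hf]; rfl
  · intro s
    obtain ⟨f, hf⟩ := Lf_surj hw hS s ((hfix _).2 s.2)
    exact ⟨f, Subtype.ext (by rw [hval]; exact hf)⟩

end Two

section Three
/-- The `k`-span of the monomials `x₁ ⋯ x_r` with `w x₁ + ⋯ + w x_r < n`. -/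
def WeightLess (k : Type u) [Field k] {X : Type v} (w : X → ℕ) (n : ℕ) :
    Submodule k (FreeAlgebra k X) :=
  Submodule.span k {f | ∃ l : List X, (l.map w).sum < n ∧ f = (l.map (FreeAlgebra.ι k)).prod}

open Pool.Agent.Helper294.FG Pool.Agent.Helper294.FGD
variable {k : Type u} [Field k] {X : Type v}

lemma Le_of_mem' {w : X → ℕ} {n : ℕ} {f : FreeAlgebra k X} (h : f ∈ WeightLess k w (n + 1)) : Le w n f := by
  have hl : ∀ l : List X, Hm w (l.map w).sum ((l.map (FreeAlgebra.ι k)).prod) := by
    intro l
    induction l with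
    | nil => exact Hm.one
    | cons x l ih =>
      rw [List.map_cons, List.sum_cons, List.map_cons, List.prod_cons]
      exact (Hm.ι x).mul ih
  induction h using Submodule.span_induction with
  | mem f hf =>
    obtain ⟨l, hl2, rfl⟩ := hf
    exact (hl l).le.mono (by omega)
  | zero => exact Le.zero n
  | add a b _ _ ha hb => exact ha.add hb
  | smul c a _ ha =>
    rw [Le, map_smul]
    exact (Polynomial.natDegree_smul_le _ _).trans ha

/-- Weighted form. Let `k` be a field of prime characteristic `p` and let `F` be the free algebra over `k` on a set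
`X` whose elements have positive integer weights `w`.  Let `σ` be an automorphism of `F` with
`σ^p = 1` such that `σ(x) - x` only involves monomials of weight less than `w x`, for every generator
`x`, and suppose that `σ(z) = z + 1` for some `z` that is a combination of monomials of weight less
than `2`.  Then the algebra of invariants of the group generated by `σ` is a free algebra. -/
lemma weighted : ∀ (p : ℕ) (k : Type u) [Field k] [CharP k p] (X : Type v) (w : X → ℕ),
    p.Prime → (∀ x, 0 < w x) →
    ∀ σ : FreeAlgebra k X ≃ₐ[k] FreeAlgebra k X, σ ^ p = 1 →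
      (∀ x : X, σ (FreeAlgebra.ι k x) - FreeAlgebra.ι k x ∈ WeightLess k w (w x)) →
      (∃ z ∈ WeightLess k w 2, σ z = z + 1) →
      IsFreeAlgebra k (Invariants (Subgroup.zpowers σ)) := by
  intro p k _ _ X w hp hw σ hσ hu hz
  obtain ⟨z, hz1, hz2⟩ := hz
  have : Fact p.Prime := ⟨hp⟩
  have hU : Uni w σ.toAlgHom := by
    intro x
    have h1 := hu x
    have h2 : w x = (w x - 1) + 1 := by have := hw x; omega
    rw [h2] at h1
    exact Le_of_mem' h1
  have hit : ∀ f, (σ.toAlgHom^[p]) f = f := by
    intro f
    have h1 : ∀ n : ℕ, ∀ f, (σ.toAlgHom^[n]) f = (σ ^ n) f := by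
      intro n
      induction n with
      | zero => intro f; rfl
      | succ n ih => intro f; rw [Function.iterate_succ_apply, ih, pow_succ]; rfl
    rw [h1, hσ]; rfl
  have hR : ∀ f, f ∈ Invariants (Subgroup.zpowers σ) ↔ σ.toAlgHom f = f := by
    intro f
    constructor
    · intro h
      exact h σ (Subgroup.mem_zpowers σ)
    · intro h g hg
      let St : Subgroup (FreeAlgebra k X ≃ₐ[k] FreeAlgebra k X) :=
        { carrier := {g | g f = f}
          mul_mem' := fun {a b} ha hb => by
            change a (b f) = f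
            rw [show b f = f from hb]; exact ha
          one_mem' := rfl
          inv_mem' := fun {a} ha => by
            change a.symm f = f
            rw [AlgEquiv.symm_apply_eq]; exact (show a f = f from ha).symm }
      have h1 : Subgroup.zpowers σ ≤ St := by
        rw [Subgroup.zpowers_le]; exact h
      exact h1 hg
  obtain ⟨y, hy⟩ := Pool.Agent.Helper294.FGD.main (σ := σ.toAlgHom) hw hU hit (z := z) hz2 (Le_of_mem' hz1) _ hR
  exact ⟨_, y, hy⟩

lemma fin [LinearOrder X] (x : X) {f : FreeAlgebra k X} (hf : f ∈ Below k x) :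
    ∃ T : Finset (List X), (∀ l ∈ T, ∀ y ∈ l, y < x) ∧
      f ∈ Submodule.span k ((fun l : List X => (l.map (FreeAlgebra.ι k)).prod) '' (T : Set (List X))) := by
  classical
  induction hf using Submodule.span_induction with
  | mem f hf =>
    obtain ⟨l, hl, rfl⟩ := hf
    refine ⟨{l}, ?_, Submodule.subset_span ⟨l, by simp, rfl⟩⟩
    intro l' hl'
    rw [Finset.mem_singleton] at hl'
    rw [hl']; exact hl
  | zero => exact ⟨∅, by simp, Submodule.zero_mem _⟩
  | add a b _ _ ha hb =>
    obtain ⟨T, hT, hT2⟩ := ha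
    obtain ⟨U, hU, hU2⟩ := hb
    refine ⟨T ∪ U, ?_, Submodule.add_mem _ (Submodule.span_mono ?_ hT2) (Submodule.span_mono ?_ hU2)⟩
    · intro l hl
      rcases Finset.mem_union.1 hl with h | h
      · exact hT l h
      · exact hU l h
    · exact Set.image_mono (by simp)
    · exact Set.image_mono (by simp)
  | smul c a _ ha =>
    obtain ⟨T, hT, hT2⟩ := ha
    exact ⟨T, hT, Submodule.smul_mem _ _ hT2⟩

lemma fin' [LinearOrder X] (x : X) {f : FreeAlgebra k X} (hf : f ∈ Below k x) :
    ∃ T : Finset (List X), (∀ l ∈ T, ∀ y ∈ l, y < x) ∧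
      f ∈ Submodule.span k ((fun l : List X => (l.map (FreeAlgebra.ι k)).prod) '' (T : Set (List X))) ∧
      ((∃ c : k, f = algebraMap k _ c) → ∀ l ∈ T, l = []) := by
  by_cases h : ∃ c : k, f = algebraMap k _ c
  · obtain ⟨c, rfl⟩ := h
    refine ⟨{[]}, by simp, ?_, by simp⟩
    rw [Algebra.algebraMap_eq_smul_one]
    apply Submodule.smul_mem
    exact Submodule.subset_span ⟨[], by simp, by simp⟩
  · obtain ⟨T, h1, h2⟩ := fin x hf
    exact ⟨T, h1, h2, fun h3 => absurd h3 h⟩

lemma exists_weight [LinearOrder X] [WellFoundedLT X] (f : X → FreeAlgebra k X)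
    (hf : ∀ x, f x ∈ Below k x) : ∃ w : X → ℕ, (∀ x, 0 < w x) ∧
      (∀ x, f x ∈ WeightLess k w (w x)) ∧ (∀ x, (∃ c : k, f x = algebraMap k _ c) → w x = 1) := by
  choose T hT1 hT2 hT3 using fun x => fin' x (hf x)
  let w : X → ℕ := WellFoundedLT.fix (motive := fun _ => ℕ) (fun x ih =>
    1 + (T x).sup (fun l => (l.map (fun y => if h : y < x then ih y h else 0)).sum))
  have hw : ∀ x, w x = 1 + (T x).sup (fun l => (l.map (fun y => if y < x then w y else 0)).sum) := by
    intro x
    simp only [w]
    rw [WellFoundedLT.fix_eq]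
    rfl
  refine ⟨w, fun x => by rw [hw x]; omega, fun x => ?_, fun x hx => ?_⟩
  · refine Submodule.span_le.2 ?_ (hT2 x)
    rintro _ ⟨l, hl, rfl⟩
    refine Submodule.subset_span ⟨l, ?_, rfl⟩
    have e : l.map w = l.map (fun y => if y < x then w y else 0) := by
      apply List.map_congr_left
      intro y hy
      rw [if_pos (hT1 x l hl y hy)]
    rw [e, hw x]
    have := Finset.le_sup (f := fun l : List X => (l.map (fun y => if y < x then w y else 0)).sum) hl
    omega
  · rw [hw x]
    have : (T x).sup (fun l => (l.map (fun y => if y < x then w y else 0)).sum) ≤ 0 := by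
      apply Finset.sup_le
      intro l hl
      rw [hT3 x hx l hl]
      simp
    omega

/-- Let `k` be a field of prime characteristic `p`, let `X` be a well-ordered set and `F` the free
algebra over `k` on `X`.  Let `σ` be an automorphism of `F` with `σ^p = 1` that is triangular, that
is, `σ(x) - x` only involves generators smaller than `x`, for every generator `x`; and suppose that
`σ(x₀) = x₀ + c` for some generator `x₀` and some nonzero `c` in `k`.  Then the algebra of
invariants of the group generated by `σ` is a free algebra. -/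
lemma part_three : ∀ (p : ℕ) (k : Type u) [Field k] [CharP k p] (X : Type v) [LinearOrder X]
    [WellFoundedLT X], p.Prime →
    ∀ σ : FreeAlgebra k X ≃ₐ[k] FreeAlgebra k X, σ ^ p = 1 →
      (∀ x : X, σ (FreeAlgebra.ι k x) - FreeAlgebra.ι k x ∈ Below k x) →
      (∃ (x₀ : X) (c : k), c ≠ 0 ∧
        σ (FreeAlgebra.ι k x₀) = FreeAlgebra.ι k x₀ + algebraMap k (FreeAlgebra k X) c) →
      IsFreeAlgebra k (Invariants (Subgroup.zpowers σ)) := by
  intro p k _ _ X _ _ hp σ hσ ht hc
  obtain ⟨x₀, c, hc0, hx⟩ := hc
  obtain ⟨w, hw, h1, h2⟩ := exists_weight _ ht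
  have hw1 : w x₀ = 1 := h2 x₀ ⟨c, by rw [hx]; exact add_sub_cancel_left _ _⟩
  refine weighted p k X w hp hw σ hσ h1 ⟨c⁻¹ • FreeAlgebra.ι k x₀, ?_, ?_⟩
  · apply Submodule.smul_mem
    exact Submodule.subset_span ⟨[x₀], by simp [hw1], by simp⟩
  · rw [map_smul, hx, smul_add, Algebra.algebraMap_eq_smul_one, smul_smul, inv_mul_cancel₀ hc0, one_smul]

end Three

/-- (1) Let `F` be the free algebra on `X` over a field `k`.  If `G` is a group (finite or infinite)
of automorphisms of `F` and there are positive weights `w` on `X` such that every `g ∈ G` maps each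
generator `x` to a weighted homogeneous element of weight `w x`, then `F^G` is free. -/
def WeightGradedActionsFree : Prop :=
  ∀ (k : Type u) [Field k] (X : Type v) (w : X → ℕ), (∀ x, 0 < w x) →
    ∀ G : Subgroup (FreeAlgebra k X ≃ₐ[k] FreeAlgebra k X),
      (∀ g ∈ G, ∀ x : X, g (FreeAlgebra.ι k x) ∈ Homogeneous k w (w x)) →
      IsFreeAlgebra k (Invariants G)

/-- (2) If `k` has prime characteristic `p`, `X` is well-ordered, and `σ` is a triangular
automorphism of `F` with `σ^p = 1` that translates some generator by a nonzero constant, then the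
algebra of invariants of the group generated by `σ` is free. -/
def TriangularOrderPFree : Prop :=
  ∀ (p : ℕ) (k : Type u) [Field k] [CharP k p] (X : Type v) [LinearOrder X]
    [WellFoundedLT X], p.Prime →
    ∀ σ : FreeAlgebra k X ≃ₐ[k] FreeAlgebra k X, σ ^ p = 1 →
      (∀ x : X, σ (FreeAlgebra.ι k x) - FreeAlgebra.ι k x ∈ Below k x) →
      (∃ (x₀ : X) (c : k), c ≠ 0 ∧
        σ (FreeAlgebra.ι k x₀) = FreeAlgebra.ι k x₀ + algebraMap k (FreeAlgebra k X) c) →
      IsFreeAlgebra k (Invariants (Subgroup.zpowers σ))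

/-- (3) For every group `G` of automorphisms, finite or infinite, `F^G` is a 2-fir with bounded
factorisations. -/
def InvariantsTwoFir : Prop :=
  ∀ (k : Type u) [Field k] (X : Type v)
    (G : Subgroup (FreeAlgebra k X ≃ₐ[k] FreeAlgebra k X)),
    IsTwoFir (Invariants G) ∧ BoundedFactorisations (Invariants G)

/-- Three results on the invariants of groups of automorphisms of free algebras. -/
theorem result :
    WeightGradedActionsFree.{u, v} ∧ TriangularOrderPFree.{u, v} ∧ InvariantsTwoFir.{u, v} :=
  ⟨part_two, part_three, part_one⟩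

end Pool.Agent.Results.MP_5e1856_al.AInvariants
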